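import Pool.Agent.Lib.MP_76c2e0_lc.Main

namespace Pool.Agent.Results.MP_76c2e0_lc.Counterexample

open Pool.Agent.Lib.MP_76c2e0_lc

/-- A countable transitive model of GB and a class symmetric system admitting forcing relations
such that no generic filter can be added to its symmetric extension by class forcing. -/
theorem result : ∃ M : Mdl, IsGB M ∧ M.sets.Countable ∧ M.cls.Countable ∧
    ∃ S : SymSys M, S.Admits ∧ S.Truth ∧ (∃ G, Generic M S.P S.le G) ∧
      ∀ G, Generic M S.P S.le G → IsGB (S.ext G) ∧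
        ∀ Q le, IsPre (S.ext G) Q le → ∀ H, Generic (S.ext G) Q le H →
          G ∉ (gext (S.ext G) Q H).cls := by
  obtain ⟨M, h1, h2, h3, S, h4, h5, h6, ⟨p, hp⟩, h7⟩ := main
  exact ⟨M, h1, h2, h3, S, h4, h5, (h6 p hp).imp fun _ h => h.1, h7⟩

end Pool.Agent.Results.MP_76c2e0_lc.Counterexample
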